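import Pool.Agent.Lib.MP_afdd4d_co.K10.BT.L0
import Pool.Agent.Lib.MP_afdd4d_co.K10.BT.L1
import Pool.Agent.Lib.MP_afdd4d_co.K10.BT.L2
import Pool.Agent.Lib.MP_afdd4d_co.K10.BT.L3
import Pool.Agent.Lib.MP_afdd4d_co.K10.BT.L4
import Pool.Agent.Lib.MP_afdd4d_co.K10.BT.L5
import Pool.Agent.Lib.MP_afdd4d_co.K10.BT.L6
import Pool.Agent.Lib.MP_afdd4d_co.K10.BT.L7
import Pool.Agent.Lib.MP_afdd4d_co.K10.BT.L8
import Pool.Agent.Lib.MP_afdd4d_co.K10.BT.L9
import Pool.Agent.Lib.MP_afdd4d_co.K10.BT.L10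
import Pool.Agent.Lib.MP_afdd4d_co.K10.BT.L11
import Pool.Agent.Lib.MP_afdd4d_co.K10.BT.L12
import Pool.Agent.Lib.MP_afdd4d_co.K10.BT.L13
import Pool.Agent.Lib.MP_afdd4d_co.K10.BT.L14
import Pool.Agent.Lib.MP_afdd4d_co.K10.BT.L15

/-!
# The class function on the codes with fixed top bits
-/

namespace Pool.Agent.Lib.MP_afdd4d_co.K10.BT

open K8

/-- The trees for the top bits `t`. -/
noncomputable def TT (t : ℕ) : TN := ([t0, t1, t2, t3, t4, t5, t6, t7, t8, t9, t10, t11, t12, t13,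
  t14, t15] : List TN).getD t (.l 0)

/-- The values at the codes with the top four bits `t`. -/
noncomputable def tB (t : ℕ) : ℕ := tnA 64 (TT t) 9

theorem TT_ok (t : ℕ) (ht : t < 16) : tnC (bvG 64 VB t) (TT t) 9 0 = true := by
  interval_cases t
  · exact ok0
  · exact ok1
  · exact ok2
  · exact ok3
  · exact ok4
  · exact ok5
  · exact ok6
  · exact ok7
  · exact ok8
  · exact ok9
  · exact ok10
  · exact ok11
  · exact ok12
  · exact ok13
  · exact ok14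
  · exact ok15

/-- The lanes. -/
noncomputable def fB (t : ℕ) (b : ℕ → Bool) : ℕ := Ln 64 VB (cix (idx 16 b + 65536 * t))

theorem tB_ar (t : ℕ) (ht : t < 16) : Ar 64 16 (tB t) (fB t) :=
  tnB_ar VB (TT t) t (by norm_num) (TT_ok t ht)

theorem fB_le (t : ℕ) (b : ℕ → Bool) : fB t b ≤ 51511186952114 := BT.VB_le _

theorem B_eq {n : ℕ} (H : Finset (Finset (Fin n))) (s : Fin 7 → Fin n) (h : EvT H s) :
    BV H BT.v s = (fB (idx 4 fun i => gc H s (16 + i)) (gc H s) : ℤ) - 35184372088832 := by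
  rw [BV_even H BT.v s h, cls7]
  have e : idx 20 (gc H s) = idx 16 (gc H s) + 65536 * idx 4 fun i => gc H s (16 + i) :=
    idx_split 16 4 (gc H s)
  rw [e]
  rfl

end Pool.Agent.Lib.MP_afdd4d_co.K10.BT
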